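import Pool.Agent.Helper29.MX.St
import Pool.Agent.Helper89.RAT.Eta
import Pool.Agent.Helper26.MT.Zw

/-! MAX from SELECTION and EXIT (row ASM): the least number of unit directions. -/

set_option autoImplicit false

namespace Pool.Agent.Helper40.MAX

open Finset Filter Topology Matrix Pool.Agent.Helper69.RK Pool.Agent.Helper31.EC Pool.Agent.Helper31.EC.Sp
open Pool.Agent.Helper40.EL Pool.Agent.Helper89.LX Pool.Agent.Helper84.MT
open Pool.Agent.Helper49.MD Pool.Agent.Helper36.AM Pool.Agent.Helper29.MX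

noncomputable section

variable {S T : Sp} {M d : ℕ} {E : ℕ → ℕ} {ι : Type}

/-! ### no types -/

theorem cnd_nil (s : MSys S M E (Fin 0)) (a b : ℝ) : s.cnd a = s.cnd b := by
  funext i
  cases i with
  | none => rfl
  | some i => exact i.elim0

theorem vol_nil (s : MSys S M E (Fin 0)) (D : ℕ) (a b : ℝ) : s.vol D a = s.vol D b := by
  obtain ⟨x, hx⟩ := s.exists_can D a
  have h1 := hx.1
  rw [← s.vol_eq h1]
  rw [cnd_nil s a b] at h1
  exact s.vol_eq h1

/-- the structure theorem is true for systems without types -/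
theorem sto_nil (s : MSys S (d + 1) E (Fin 0)) : volO s 0 ≤ HQ s 0 := by
  refine (volO_le s 1 0).trans ?_
  rw [vol_nil s 1 0 1]
  exact (Pool.Agent.Helper89.RAT.vol_one_le s le_rfl).trans (HQ_nonneg s 0)

/-! ### unit directions -/

theorem ud_le {s : MSys S M E ι} {v : ℕ} {j : ι} (h : Ud v s j) : v ≤ M := by
  have hA : 0 < ul (S.pr fun _ _ => True) := ul_pr_typ_pos _ Typ_true
  have h1 := h S (Pj.id S) (fun _ _ => True) hA 0 1 le_rfl zero_le_one le_rfl
  rw [sub_zero, mul_one] at h1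
  have h2 : ∀ ε : ℝ, 0 < ε → (v : ℝ) ≤ M + ε := by
    intro ε hε
    refine h1.trans ?_
    have hb := h_cell_le (s.im (Pj.id S) (fun _ _ => True) hA).Q zero_le_one
      (((s.im (Pj.id S) (fun _ _ => True) hA).lf j).win 0) ε hε
    rw [mul_one] at hb
    exact ul_le_const (UB_of_nonneg_le (Eventually.of_forall fun k => div_nonneg (h_nonneg _ _)
      ((Sp.im (Pj.id S) fun _ _ => True).F k).pos.le) hb) hb
  have h3 : (v : ℝ) ≤ M := le_of_forall_pos_le_add h2
  exact_mod_cast h3

theorem ud_zero (s : MSys S M E ι) (j : ι) : Ud 0 s j := by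
  intro T p A hA c c' _ _ _
  rw [Nat.cast_zero, zero_mul]
  have h0 : ∀ k, 0 ≤ h (fc (Setoid.ker ((s.im p A hA).Q.cellv c' k))) (((s.im p A hA).lf j).win c k) /
      ((Sp.im p A).F k).n := fun k => div_nonneg (h_nonneg _ _) ((Sp.im p A).F k).pos.le
  have hb := h_cell_le (s.im p A hA).Q (show (0 : ℝ) ≤ c' by linarith) (((s.im p A hA).lf j).win c) 1 one_pos
  exact const_le_ul (UB_of_nonneg_le (Eventually.of_forall h0) hb) (Eventually.of_forall h0)

theorem inv_zero [Nonempty ι] (s : MSys S M E ι) : Inv 0 s := ⟨‹_›, fun i => ud_zero s i⟩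

/-- more unit directions than coordinates -/
theorem sto_big {N : ℕ} (A : MCl N) {v : ℕ} (hv : N < v) : STO N (Cv A v) := by
  intro S g r s hs
  obtain ⟨⟨i⟩, hi⟩ := hs.2
  have := ud_le (hi i)
  omega

/-- systems without types obey the structure theorem -/
theorem sto_of_zero {N : ℕ} (A : MCl (N + 1)) (h : STO (N + 1) (Cv A 0)) : STO (N + 1) A := by
  intro S g r s hs
  rcases r with _ | r
  · exact sto_nil s
  · exact h S g (r + 1) s ⟨hs, inv_zero s⟩

theorem YC.sub {M g r : ℕ} {B B' : MCl (M + 1)} {w : Fin (M + 1) → ℝ}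
    {Y : ∀ S : Sp, MSys S (M + 1) (lin g) (Fin r) → Prop} (h : YC M B g r w Y)
    (hB : ∀ S s, B S g r s → B' S g r s) : YC M B' g r w Y :=
  { h with cl := fun S s hs => hB S s (h.cl S s hs) }

/-- MAX from SELECTION and EXIT: the largest number `v` of unit directions for which the structure theorem fails -/
theorem max_of {M : ℕ} (h1 : SELP M) (h2 : EXITP M) (Cl Cl' : MCl (M + 1)) : MAX okM M Cl Cl' := by
  classical
  intro hok hst hn
  obtain ⟨A, C, D, hC, hE, hD, hA⟩ := hok hst hn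
  have h0 : ¬ STO (M + 1) (Cv A 0) := fun h => hA (sto_of_zero A h)
  have hex : ∃ v, STO (M + 1) (Cv A v) := ⟨M + 2, sto_big A (by omega)⟩
  obtain ⟨v, hv⟩ : ∃ v, Nat.find hex = v + 1 := by
    refine ⟨Nat.find hex - 1, ?_⟩
    have : Nat.find hex ≠ 0 := fun h => h0 (h ▸ Nat.find_spec hex)
    omega
  have hv1 : STO (M + 1) (Cv A (v + 1)) := hv ▸ Nat.find_spec hex
  have hv2 : ¬ STO (M + 1) (Cv A v) := Nat.find_min hex (by omega)
  obtain ⟨m, g, r, w, Y, hY⟩ := h1 A C Cl' D hC hE hD hst v hv1 hv2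
  obtain ⟨g', r', ρ, TT, hH⟩ := h2 Cl' hst g r w Y (YC.sub hY fun S s hs => hD.le w m S g r s hs)
  exact ⟨g', r', w, ρ, TT, hH⟩

end

end Pool.Agent.Helper40.MAX
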